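import Pool.Agent.Lib.MP_ac8f1a_ag.Hyp

/-!
Negative answer to Q1 of `MP_ac8f1a_ag`.

Over every field `K` of characteristic different from `2` and `3` the central arrangement in
`K^3` with defining polynomial `z (x^2 - z^2) (y^2 - z^2) ((x + y)^2 - z^2)` satisfies the
hypotheses (H), with all `g i` nonzero and `g` at the last index homogeneous of degree two, but
its module of logarithmic derivations has no graded minimal free resolution of the shape asked
for. (Its minimal generators have degrees `1, 4, 4, 4` and the unique minimal relation has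
degree `6`.) The definitions are in `Pool.Agent.Lib.MP_ac8f1a_ag.Defs`.
-/

namespace Pool.Agent.Results.MP_ac8f1a_ag.Counterexample

open Pool.Agent.Lib.MP_ac8f1a_ag

universe u

theorem result (K : Type u) [Field K] (h2 : (2 : K) ≠ 0) (h3 : (3 : K) ≠ 0) :
    ∃ (A : CentralArrangement K 3) (θ : Fin (3 + 1) → Der K 3)
      (g : Fin (3 + 1) → MvPolynomial (Fin 3) K),
      HypH A θ g ∧ (∀ i, g i ≠ 0) ∧ (g (Fin.last 3)).IsHomogeneous 2 ∧ ¬ HasShape A :=
  ⟨arr K h2, th K, gg K, hypH h2 h3, gg_ne_zero, q1_homog.neg, not_hasShape h2 h3⟩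

end Pool.Agent.Results.MP_ac8f1a_ag.Counterexample
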